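import Pool.Agent.MP_18f3df_al.QUniv

/-!
# The polymorphism clone of the rationals with their order has cofinality `ℵ₀`
-/

set_option autoImplicit false

namespace Pool.Agent.Results.MP_18f3df_al.RationalOrder

open Pool.MP_18f3df_al Cardinal

/-- The polymorphism clone of `(ℚ, ≤)` is not finitely generated and has cofinality `ℵ₀`, and for
every `m ≥ 1` some monotone operation of arity `m + 1` is not in the clone generated by the
monotone operations of arity at most `m` (an element `h` of `Op ℚ` has arity `h.1 + 1`). -/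
theorem result :
    ¬ FinGen (Pol (fun (_ : Unit) (x y : ℚ) => x ≤ y)) ∧
      cofinality (Pol (fun (_ : Unit) (x y : ℚ) => x ≤ y)) = ℵ₀ ∧
      ∀ m : ℕ, 1 ≤ m → ∃ f : (Fin (m + 1) → ℚ) → ℚ,
        (⟨m, f⟩ : Op ℚ) ∈ Pol (fun (_ : Unit) (x y : ℚ) => x ≤ y) ∧
        (⟨m, f⟩ : Op ℚ) ∉ cloneGen
          {h : Op ℚ | h ∈ Pol (fun (_ : Unit) (x y : ℚ) => x ≤ y) ∧ h.1 + 1 ≤ m} :=
  ⟨Qle.not_finGen, Qle.cofinality_eq, fun _ hm => Qle.exists_not_mem hm⟩

end Pool.Agent.Results.MP_18f3df_al.RationalOrder
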