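import Pool.Agent.MP_18f3df_al.Main

/-!
# The polymorphism clone of the rational Urysohn space has uncountable cofinality

The rational Urysohn space is any model `U` of `IsUrysohn ratDist U`: a countable homogeneous
metric space with rational distances into which every finite metric space with rational
distances embeds.
-/

namespace Pool.Agent.Results.MP_18f3df_al.UrysohnSpace

open Pool.MP_18f3df_al Cardinal

theorem result (U : Type) [MetricSpace U] (hU : IsUrysohn ratDist U) :
    ¬ FinGen (Pol (fun (q : ℚ) (x y : U) => dist x y ≤ q)) ∧
      ℵ₀ < cofinality (Pol (fun (q : ℚ) (x y : U) => dist x y ≤ q)) :=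
  main hU capData_rat

end Pool.Agent.Results.MP_18f3df_al.UrysohnSpace
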